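import Pool.Agent.Q38.QP.FormsA

/-!
# Project QM: job QM-R3 (helper251), the algebra of quadratic and linear forms
-/

set_option autoImplicit false

namespace Pool.Agent.Q251.QM

open MvPolynomial Pool.Agent.Q38.QP

section

variable {K : Type} [Field K]

/-- the derivatives of a quadratic form -/
theorem pd_quad {σ : Type} [Fintype σ] (f : MvPolynomial σ K) (hf : f.IsHomogeneous 2) (i : σ) :
    pderiv i f = ∑ k, X k * C (coeff 0 (pderiv i (pderiv k f))) := by
  have h3 : (pderiv i f).IsHomogeneous 1 := hf.pderiv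
  have h4 := h3.sum_X_mul_pderiv
  rw [one_smul] at h4
  rw [← h4]
  refine Finset.sum_congr rfl fun k _ => ?_
  congr 1
  have h5 : (pderiv k (pderiv i f)).IsHomogeneous 0 := h3.pderiv
  rw [pd_comm i k]
  exact totalDegree_eq_zero_iff_eq_C.1 ((totalDegree_zero_iff_isHomogeneous σ).2 h5)

/-- a vector at which all derivatives vanish is in the kernel -/
theorem ker_of_pd {σ : Type} [Fintype σ] [CharZero K] (f : MvPolynomial σ K)
    (hf : f.IsHomogeneous 2) (v : σ → K) (h : ∀ i, eval v (pderiv i f) = 0) :
    (qm f).mulVec v = 0 := by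
  funext i
  have h1 := h i
  rw [pd_quad f hf i, map_sum] at h1
  simp only [map_mul, eval_X, eval_C] at h1
  rw [Matrix.mulVec, dotProduct, Pi.zero_apply]
  have h2 : ∑ k, qm f i k * v k = (2 : K)⁻¹ * ∑ k, v k * coeff 0 (pderiv i (pderiv k f)) := by
    rw [Finset.mul_sum]
    refine Finset.sum_congr rfl fun k _ => ?_
    simp only [qm, Matrix.of_apply]
    ring
  rw [h2, h1, mul_zero]

/-- a quadratic form does not change along its kernel -/
theorem quad_subst {σ : Type} [Fintype σ] [CharZero K] (f : MvPolynomial σ K)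
    (hf : f.IsHomogeneous 2) (c : σ → K) (hc : (qm f).mulVec c = 0) (i0 : σ) :
    aeval (fun i => X i - C (c i) * X i0 : σ → MvPolynomial σ K) f = f := by
  have hs := qm_symm f
  have h1 : ∀ i, ∑ k, C (qm f i k) * C (c k) = (0 : MvPolynomial σ K) := by
    intro i
    have h2 := congrArg (C : K → MvPolynomial σ K) (congrFun hc i)
    simp only [Matrix.mulVec, dotProduct, Pi.zero_apply, map_sum, map_mul, map_zero] at h2
    exact h2
  have h1' : ∀ k, ∑ i, C (qm f i k) * C (c i) = (0 : MvPolynomial σ K) := by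
    intro k
    rw [← h1 k]
    refine Finset.sum_congr rfl fun i _ => ?_
    rw [hs.apply i k]
  rw [quad_aeval f hf]
  simp only [algebraMap_eq]
  have h3 : ∀ i, ∑ k, C (qm f i k) * ((X i - C (c i) * X i0) * (X k - C (c k) * X i0)) =
      (X i - C (c i) * X i0) * ∑ k, C (qm f i k) * (X k : MvPolynomial σ K) := by
    intro i
    have h4 : ∑ k, C (qm f i k) * ((X i - C (c i) * X i0) * (X k - C (c k) * X i0)) =
        (X i - C (c i) * X i0) * (∑ k, C (qm f i k) * (X k : MvPolynomial σ K) -
          X i0 * ∑ k, C (qm f i k) * C (c k)) := by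
      rw [Finset.mul_sum, ← Finset.sum_sub_distrib, Finset.mul_sum]
      refine Finset.sum_congr rfl fun k _ => ?_
      ring
    rw [h4, h1, mul_zero, sub_zero]
  rw [Finset.sum_congr rfl fun i _ => h3 i]
  simp only [sub_mul, Finset.sum_sub_distrib]
  have h5 : ∑ i, C (c i) * X i0 * ∑ k, C (qm f i k) * (X k : MvPolynomial σ K) = 0 := by
    have h6 : ∑ i, C (c i) * X i0 * ∑ k, C (qm f i k) * (X k : MvPolynomial σ K) =
        ∑ k, X i0 * X k * ∑ i, C (qm f i k) * C (c i) := by
      simp only [Finset.mul_sum]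
      rw [Finset.sum_comm]
      refine Finset.sum_congr rfl fun k _ => Finset.sum_congr rfl fun i _ => ?_
      ring
    rw [h6]
    exact Finset.sum_eq_zero fun k _ => by rw [h1', mul_zero]
  rw [h5, sub_zero]
  conv_rhs => rw [quad_eq f hf]
  refine Finset.sum_congr rfl fun i _ => ?_
  rw [Finset.mul_sum]
  refine Finset.sum_congr rfl fun k _ => ?_
  ring

/-- the degree after a substitution -/
theorem quad_deg {σ τ : Type} [Fintype σ] [CharZero K] (f : MvPolynomial σ K)
    (hf : f.IsHomogeneous 2) (u : σ → MvPolynomial τ K) (hu : ∀ i, (u i).totalDegree ≤ 1) :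
    (aeval u f).totalDegree ≤ 2 := by
  rw [quad_aeval f hf]
  refine totalDegree_finsetSum_le fun i _ => totalDegree_finsetSum_le fun k _ => ?_
  rw [algebraMap_eq]
  refine (totalDegree_mul _ _).trans ?_
  rw [totalDegree_C, zero_add]
  exact (totalDegree_mul _ _).trans (add_le_add (hu i) (hu k))

/-- the dehomogenization of a form is not zero -/
theorem deh_ne {n : ℕ} [CharZero K] (f : MvPolynomial (Fin (n + 1)) K)
    (hf : f.IsHomogeneous 2) (i0 : Fin (n + 1))
    (h : aeval (i0.insertNth (1 : MvPolynomial (Fin n) K) X :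
      Fin (n + 1) → MvPolynomial (Fin n) K) f = 0) : f = 0 := by
  have h1 : X i0 * f = 0 := by
    apply MvPolynomial.funext
    intro x
    rw [map_mul, eval_X, map_zero]
    by_cases hx : x i0 = 0
    · rw [hx, zero_mul]
    · have h2 := congrArg (eval fun t => x (i0.succAbove t) / x i0) h
      rw [map_zero] at h2
      have h3 : eval (fun t => x (i0.succAbove t) / x i0) (aeval
          (i0.insertNth (1 : MvPolynomial (Fin n) K) X : Fin (n + 1) → MvPolynomial (Fin n) K) f) =
          aeval (fun i => x i / x i0) f := by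
        rw [← coe_aeval_eq_eval, ← AlgHom.coe_toRingHom]
        change (aeval _ : MvPolynomial (Fin n) K →ₐ[K] K) (aeval _ f) = _
        rw [← AlgHom.comp_apply, comp_aeval]
        congr 2
        funext i
        refine Fin.succAboveCases i0 ?_ (fun t => ?_) i
        · rw [Fin.insertNth_apply_same, map_one, div_self hx]
        · rw [Fin.insertNth_apply_succAbove, aeval_X]
      rw [h3, quad_aeval f hf] at h2
      have h4 : eval x f = x i0 ^ 2 * ∑ i, ∑ k, algebraMap K K (qm f i k) *
          (x i / x i0 * (x k / x i0)) := by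
        rw [← aeval_eq_eval, quad_aeval f hf, Finset.mul_sum]
        refine Finset.sum_congr rfl fun i _ => ?_
        rw [Finset.mul_sum]
        refine Finset.sum_congr rfl fun k _ => ?_
        field_simp
      rw [h4, h2, mul_zero, mul_zero]
  exact (mul_eq_zero.1 h1).resolve_left (X_ne_zero _)

/-- linear forms -/
theorem lin_form {n : ℕ} (f : MvPolynomial (Fin n) K) (hf : f.IsHomogeneous 1) :
    f = ∑ k, C (coeff (Finsupp.single k 1) f) * X k := by
  have h1 := hf.sum_X_mul_pderiv
  rw [one_smul] at h1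
  conv_lhs => rw [← h1]
  refine Finset.sum_congr rfl fun k _ => ?_
  have h5 : (pderiv k f).IsHomogeneous 0 := hf.pderiv
  have h6 := totalDegree_eq_zero_iff_eq_C.1 ((totalDegree_zero_iff_isHomogeneous (Fin n)).2 h5)
  have h7 : coeff 0 (pderiv k f) = coeff (Finsupp.single k 1) f := by
    rw [coeff_pderiv]
    simp
  rw [h6, h7, mul_comm]

theorem pd_lin {n : ℕ} (f : MvPolynomial (Fin n) K) (hf : f.IsHomogeneous 1) (k : Fin n) :
    pderiv k f = C (coeff (Finsupp.single k 1) f) := by
  have h5 : (pderiv k f).IsHomogeneous 0 := hf.pderiv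
  have h6 := totalDegree_eq_zero_iff_eq_C.1 ((totalDegree_zero_iff_isHomogeneous (Fin n)).2 h5)
  have h7 : coeff 0 (pderiv k f) = coeff (Finsupp.single k 1) f := by
    rw [coeff_pderiv]
    simp
  rw [h6, h7]

/-- three independent linear forms -/
theorem exists_jac {r : ℕ} (m : Fin r → MvPolynomial (Fin 3) K)
    (hm : ∀ j, (m j).IsHomogeneous 1)
    (h : ∀ p : Fin 3 → K, (∀ j, eval p (m j) = 0) → p = 0) :
    ∃ e : Fin 3 → Fin r, (Matrix.of fun s t => pderiv s (m (e t))).det ≠ 0 := by
  by_contra hcon
  push Not at hcon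
  have h1 : ∀ e : Fin 3 → Fin r, (Matrix.of fun t => (fun k => coeff (Finsupp.single k 1)
      (m (e t)) : Fin 3 → K)).det = 0 := by
    intro e
    have h2 := hcon e
    have h3 : (Matrix.of fun s t => pderiv s (m (e t))) =
        (Matrix.of fun t => (fun k => coeff (Finsupp.single k 1) (m (e t)) :
          Fin 3 → K)).transpose.map (C : K →+* MvPolynomial (Fin 3) K) := by
      ext1 s t
      rw [Matrix.of_apply, pd_lin _ (hm _)]
      rfl
    rw [h3, ← RingHom.mapMatrix_apply, ← RingHom.map_det, Matrix.det_transpose] at h2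
    exact (C_injective (Fin 3) K) (by rw [h2, C_0])
  obtain ⟨w, hw, h2⟩ := exists_zero (fun j k => coeff (Finsupp.single k 1) (m j)) h1
  apply hw
  apply h
  intro j
  rw [lin_form (m j) (hm j), map_sum]
  have h3 := h2 j
  rw [dotProduct] at h3
  rw [← h3]
  refine Finset.sum_congr rfl fun k _ => ?_
  rw [map_mul, eval_C, eval_X]

/-- the inverse substitution -/
theorem lin_lin {n : ℕ} (M : Matrix (Fin n) (Fin n) K) (hM : M.det ≠ 0)
    (f : MvPolynomial (Fin n) K) : aeval (lin M⁻¹) (aeval (lin M) f) = f := by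
  rw [← AlgHom.comp_apply, comp_aeval]
  have h2 : (fun i => aeval (lin M⁻¹) (lin M i)) = (X : Fin n → MvPolynomial (Fin n) K) := by
    funext i
    unfold lin
    simp only [map_sum, map_mul, aeval_C, aeval_X, algebraMap_eq]
    simp only [Finset.mul_sum]
    rw [Finset.sum_comm]
    have h3 : ∀ l, ∑ k, C (M i k) * (C (M⁻¹ k l) * X l) =
        (C ((M * M⁻¹) i l) * X l : MvPolynomial (Fin n) K) := by
      intro l
      rw [Matrix.mul_apply, map_sum, Finset.sum_mul]
      refine Finset.sum_congr rfl fun k _ => ?_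
      rw [C_mul]
      ring
    simp only [h3]
    rw [Matrix.mul_nonsing_inv M (isUnit_iff_ne_zero.2 hM)]
    rw [Finset.sum_eq_single i]
    · simp
    · intro l _ hl
      rw [Matrix.one_apply_ne hl.symm, C_0, zero_mul]
    · intro h4
      exact absurd (Finset.mem_univ _) h4
  rw [h2]
  exact aeval_X_left_apply f

end

end Pool.Agent.Q251.QM
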