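import Pool.Agent.Q57.QM.Stm4
import Pool.Agent.Q251.QM.R3a

/-!
# Project QM: job QM-R3 (helper251): covers of families of quaternary quadratic forms
-/

set_option autoImplicit false

namespace Pool.Agent.Q251.QM

open MvPolynomial Pool.Agent.Q38.QP
open Pool.Agent.Q57.MC (Chart Same mulF sf_iff)
open Pool.Agent.Q57.MD (IsForm same_one)
open Pool.Agent.Q57.QM

theorem cv_mono {Γ : ∀ n r : ℕ, (Fin r → MvPolynomial (Fin n) ℂ) → Prop} {n r : ℕ}
    {f : Fin r → MvPolynomial (Fin n) ℂ} {P Q : (Fin n → ℂ) → Prop} (h : Cv Γ f P)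
    (hPQ : ∀ p, Q p → P p) : Cv Γ f Q := by
  obtain ⟨S, hS, hp⟩ := h
  exact ⟨S, hS, fun p hq hz => hp p (hPQ p hq) hz⟩

/-- a family of forms is a chart of itself at the origin -/
theorem cv_orig {Γ : ∀ n r : ℕ, (Fin r → MvPolynomial (Fin n) ℂ) → Prop} {n r : ℕ}
    (f : Fin r → MvPolynomial (Fin n) ℂ) (hf : Γ n r f) (h : Cv Γ f fun p => p ≠ 0) :
    Cv Γ f fun _ => True := by
  classical
  obtain ⟨S, hS, hp⟩ := h
  refine ⟨insert (Chart.mk n r X 1 id f) S, fun A hA => ?_, fun p _ hz => ?_⟩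
  · rcases Finset.mem_insert.1 hA with rfl | hA
    · refine ⟨?_, hf⟩
      have h1 := same_one f (fun t => (X t : MvPolynomial (Fin n) ℂ))
      have h2 : (fun k => aeval (fun t => (X t : MvPolynomial (Fin n) ℂ)) (f k)) = f := by
        funext k
        exact aeval_X_left_apply (f k)
      rw [h2] at h1
      exact h1
    · exact hS A hA
  · by_cases h0 : p = 0
    · refine ⟨_, Finset.mem_insert_self _ _, ?_⟩
      subst h0
      refine ⟨by rw [map_one]; exact one_ne_zero, fun t => by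
        change eval 0 (X t : MvPolynomial (Fin n) ℂ) = 0
        rw [eval_X, Pi.zero_apply], ?_⟩
      have h1 : (Matrix.of fun u t : Fin n => eval (0 : Fin n → ℂ)
          (pderiv (id u) (X t : MvPolynomial (Fin n) ℂ))) = 1 := by
        ext u t
        rw [Matrix.of_apply, id, Matrix.one_apply]
        split_ifs with h
        · rw [h, pderiv_X_self, map_one]
        · rw [pderiv_X_of_ne (Ne.symm h), map_zero]
      change (Matrix.of fun u t : Fin n => eval (0 : Fin n → ℂ)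
          (pderiv (id u) (X t : MvPolynomial (Fin n) ℂ))).det ≠ 0
      rw [h1, Matrix.det_one]
      exact one_ne_zero
    · obtain ⟨A, hA, hAp⟩ := hp p h0 hz
      exact ⟨A, Finset.mem_insert_of_mem hA, hAp⟩

/-- forms with a common vertex -/
theorem case_a (hComp : StCvComp) (hQuad : StCvQuad)
    {Γ : ∀ n r : ℕ, (Fin r → MvPolynomial (Fin n) ℂ) → Prop} (hΓ : GG Γ) {r : ℕ}
    (f : Fin r → MvPolynomial (Fin 4) ℂ) (hne : ∃ j, f j ≠ 0) (hf : ∀ j, (f j).IsHomogeneous 2)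
    (v : Fin 4 → ℂ) (hv : v ≠ 0) (hd : ∀ j i, eval v (pderiv i (f j)) = 0) :
    Cv Γ f fun _ => True := by
  classical
  obtain ⟨i0, hi0⟩ : ∃ i, v i ≠ 0 := by
    by_contra hcon
    push Not at hcon
    exact hv (funext hcon)
  obtain ⟨c, hcdef⟩ : ∃ c : Fin 4 → ℂ, c = fun i => v i / v i0 := ⟨_, rfl⟩
  have hc0 : c i0 = 1 := by rw [hcdef]; exact div_self hi0
  have hc : ∀ j, (qm (f j)).mulVec c = 0 := by
    intro j
    have h1 := ker_of_pd (f j) (hf j) v (hd j)
    have h2 : c = (v i0)⁻¹ • v := by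
      rw [hcdef]
      funext i
      rw [Pi.smul_apply, smul_eq_mul, div_eq_inv_mul]
    rw [h2, Matrix.mulVec_smul, h1, smul_zero]
  obtain ⟨a, hadef⟩ : ∃ a : Fin 3 → MvPolynomial (Fin 4) ℂ, a = fun t =>
    X (i0.succAbove t) - C (c (i0.succAbove t)) * X i0 := ⟨_, rfl⟩
  obtain ⟨h, hhdef⟩ : ∃ h : Fin r → MvPolynomial (Fin 3) ℂ, h = fun j =>
    aeval (i0.insertNth (0 : MvPolynomial (Fin 3) ℂ) X :
      Fin 4 → MvPolynomial (Fin 3) ℂ) (f j) := ⟨_, rfl⟩
  have hfa : (fun k => aeval a (h k)) = f := by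
    funext j
    have h1 : aeval a (h j) =
        aeval (fun i => X i - C (c i) * X i0 : Fin 4 → MvPolynomial (Fin 4) ℂ) (f j) := by
      rw [hhdef]
      change aeval a (aeval _ (f j)) = _
      rw [← AlgHom.comp_apply, comp_aeval]
      congr 2
      funext i
      refine Fin.succAboveCases i0 ?_ (fun t => ?_) i
      · rw [Fin.insertNth_apply_same, map_zero, hc0, C_1, one_mul, sub_self]
      · rw [Fin.insertNth_apply_succAbove, aeval_X, hadef]
    rw [h1, quad_subst (f j) (hf j) c (hc j) i0]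
  have hQ : QuadSys h := by
    refine ⟨?_, Or.inl fun j => ?_⟩
    · obtain ⟨j, hj⟩ := hne
      refine ⟨j, fun h0 => hj ?_⟩
      rw [← congrFun hfa j, h0, map_zero]
    · rw [hhdef]
      refine quad_deg (f j) (hf j) _ fun i => ?_
      refine Fin.succAboveCases i0 ?_ (fun t => ?_) i
      · rw [Fin.insertNth_apply_same, totalDegree_zero]
        exact Nat.zero_le _
      · rw [Fin.insertNth_apply_succAbove, totalDegree_X]
  have hS : Same f h a 1 := by
    have h1 := same_one h a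
    rwa [hfa] at h1
  refine cv_mono (hComp Γ f h a 1 hS (hQuad Γ hΓ h hQ)) fun p _ =>
    ⟨by rw [map_one]; exact one_ne_zero, i0.succAbove, ?_⟩
  have h1 : (Matrix.of fun u t : Fin 3 => eval p (pderiv (i0.succAbove u) (a t) * 1 -
      a t * pderiv (i0.succAbove u) 1)) = 1 := by
    ext u t
    rw [Matrix.of_apply, Matrix.one_apply, pderiv_one, mul_zero, sub_zero, mul_one, hadef]
    change eval p (pderiv (i0.succAbove u)
      (X (i0.succAbove t) - C (c (i0.succAbove t)) * X i0)) = _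
    rw [map_sub, pderiv_C_mul, pderiv_X_of_ne (Fin.succAbove_ne i0 u).symm, mul_zero, sub_zero]
    split_ifs with h
    · rw [h, pderiv_X_self, map_one]
    · rw [pderiv_X_of_ne (fun h2 => h (Fin.succAbove_right_injective h2).symm), map_zero]
  rw [h1, Matrix.det_one]
  exact one_ne_zero

theorem form_hom {n d : ℕ} (f : MvPolynomial (Fin n) ℂ) (hf : f.IsHomogeneous d) :
    f.IsWeightedHomogeneous (fun i => if i ∈ (Finset.univ : Finset (Fin n)) then 1 else 0) d := by
  have h3 : (fun i => if i ∈ (Finset.univ : Finset (Fin n)) then 1 else 0) =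
      (1 : Fin n → ℕ) := by
    funext i
    rw [if_pos (Finset.mem_univ _)]
    rfl
  rw [h3]
  exact hf

/-- linear forms without common zeros -/
theorem gam_lin {Γ : ∀ n r : ℕ, (Fin r → MvPolynomial (Fin n) ℂ) → Prop} (hΓ : GG Γ) {r : ℕ}
    (m : Fin r → MvPolynomial (Fin 3) ℂ) (hm1 : ∀ j, (m j).IsHomogeneous 1)
    (hm2 : ∀ p : Fin 3 → ℂ, (∀ j, eval p (m j) = 0) → p = 0) : Γ 3 r m := by
  classical
  obtain ⟨e, he⟩ := exists_jac m hm1 hm2
  refine hΓ.cone m 1 ⟨⟨0, Finset.mem_univ _⟩, one_pos, fun j => form_hom _ (hm1 j),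
    Or.inl ⟨fun t => e t.1, ?_⟩⟩
    ⟨∅, fun A hA => absurd hA (Finset.notMem_empty A), fun p hp hz => absurd (hm2 p hz) hp⟩
  let σ : (Finset.univ : Finset (Fin 3)) ≃ Fin 3 :=
    Equiv.subtypeUnivEquiv (fun x => Finset.mem_univ x)
  have h1 := Matrix.det_submatrix_equiv_self σ (Matrix.of fun s t => pderiv s (m (e t)))
  have h2 : (Matrix.of fun s t => pderiv s (m (e t))).submatrix σ σ =
      (Matrix.of fun s t : (Finset.univ : Finset (Fin 3)) => pderiv (s : Fin 3) (m (e t.1))) := rfl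
  rw [h2] at h1
  rw [h1]
  exact he

/-- forms without a common vertex -/
theorem gam4 (hRoot : StRoot4) {Γ : ∀ n r : ℕ, (Fin r → MvPolynomial (Fin n) ℂ) → Prop}
    (hΓ : GG Γ) {r : ℕ} (f : Fin r → MvPolynomial (Fin 4) ℂ) (hne : ∃ j, f j ≠ 0)
    (hf : ∀ j, (f j).IsHomogeneous 2)
    (hd : ∀ p : Fin 4 → ℂ, (∀ j i, eval p (pderiv i (f j)) = 0) → p = 0)
    (hcv : Cv Γ f fun p => p ≠ 0) : Γ 4 r f := by
  classical
  rcases hRoot (RingHom.id ℂ) f hf hd with h | ⟨U, m, hU, hm1, hm2, hm3⟩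
  · refine hΓ.cone f 2 ⟨⟨0, Finset.mem_univ _⟩, two_pos, fun j => form_hom _ (hf j),
      Or.inr (Or.inr ⟨hne, ?_⟩)⟩ hcv
    have h1 : (fun j => map (RingHom.id ℂ) (f j)) = f := funext fun j => map_id _
    rw [h1] at h
    have h2 := (sf_iff f hne _).1 h
    have h3 : (-((Finset.univ : Finset (Fin 4)).card : ℂ) / ((2 : ℕ) : ℂ)) = -2 := by
      rw [Finset.card_fin]
      norm_num
    intro b hb
    rw [h3]
    exact h2 b hb
  · have h4 : Γ (1 + 3) (1 * r) (mulF (fun _ : Fin 1 => X 0 ^ 1) m) :=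
      hΓ.mul (fun _ : Fin 1 => X 0 ^ 1) m (hΓ.pow 1 le_rfl) (gam_lin hΓ m hm1 hm2)
    have hUi : (U⁻¹).det ≠ 0 := by
      rw [Matrix.det_nonsing_inv, Ring.inverse_eq_inv']
      exact inv_ne_zero hU
    have key : ∀ k : Fin (1 * r), aeval (lin U⁻¹)
        ((mulF (fun _ : Fin 1 => X 0 ^ 1) m k : MvPolynomial (Fin (1 + 3)) ℂ) :
          MvPolynomial (Fin 4) ℂ) = f (finProdFinEquiv.symm k).2 := by
      intro k
      have h5 : ((mulF (fun _ : Fin 1 => X 0 ^ 1) m k : MvPolynomial (Fin (1 + 3)) ℂ) :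
          MvPolynomial (Fin 4) ℂ) = X 0 * rename Fin.succ (m (finProdFinEquiv.symm k).2) := by
        have h6 : (Fin.natAdd 1 : Fin 3 → Fin (1 + 3)) = (Fin.succ : Fin 3 → Fin 4) := by
          funext i
          apply Fin.ext
          change 1 + (i : ℕ) = (i : ℕ) + 1
          omega
        change rename (Fin.castAdd 3) (X 0 ^ 1 : MvPolynomial (Fin 1) ℂ) *
          rename (Fin.natAdd 1) (m (finProdFinEquiv.symm k).2) = _
        rw [pow_one, rename_X, h6]
        rfl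
      rw [h5, ← hm3]
      exact lin_lin U hU _
    refine hΓ.lin f (mulF (fun _ : Fin 1 => X 0 ^ 1) m : Fin (1 * r) → MvPolynomial (Fin 4) ℂ)
      U⁻¹ hUi ?_ h4
    congr 1
    ext x
    constructor
    · rintro ⟨j, rfl⟩
      refine ⟨finProdFinEquiv (0, j), ?_⟩
      have h7 := key (finProdFinEquiv (0, j))
      rw [Equiv.symm_apply_apply] at h7
      exact h7
    · rintro ⟨k, rfl⟩
      exact ⟨(finProdFinEquiv.symm k).2, (key k).symm⟩

theorem quadsys_deh {r : ℕ} (f : Fin r → MvPolynomial (Fin 4) ℂ) (hne : ∃ j, f j ≠ 0)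
    (hf : ∀ j, (f j).IsHomogeneous 2) (i : Fin 4) : QuadSys fun j => dehC i (f j) := by
  refine ⟨?_, Or.inl fun j => ?_⟩
  · obtain ⟨j, hj⟩ := hne
    exact ⟨j, fun h0 => hj (deh_ne (f j) (hf j) i h0)⟩
  · refine quad_deg (f j) (hf j) _ fun k => ?_
    refine Fin.succAboveCases i ?_ (fun t => ?_) k
    · rw [Fin.insertNth_apply_same, totalDegree_one]
      exact Nat.zero_le _
    · rw [Fin.insertNth_apply_succAbove, totalDegree_X]

theorem qm_cvq4 : StCvComp → StCvForms → StCvQuad → StRoot4 → StCvQ4 := by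
  intro hComp hForms hQuad hRoot Γ hΓ r f hne hf
  by_cases hv : ∃ v : Fin 4 → ℂ, v ≠ 0 ∧ ∀ j i, eval v (pderiv i (f j)) = 0
  · obtain ⟨v, h1, h2⟩ := hv
    exact case_a hComp hQuad hΓ f hne hf v h1 h2
  · have hd : ∀ p : Fin 4 → ℂ, (∀ j i, eval p (pderiv i (f j)) = 0) → p = 0 :=
      fun p hp => by_contra fun h => hv ⟨p, h, hp⟩
    have h1 : Cv Γ f fun p => p ≠ 0 :=
      hForms Γ f 2 hf fun i => hQuad Γ hΓ _ (quadsys_deh f hne hf i)
    exact cv_orig f (gam4 hRoot hΓ f hne hf hd h1) h1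

end Pool.Agent.Q251.QM
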