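import Pool.Agent.Q57.QM.Stm

/-!
# Project QM: job QM-T (helper251): arcs satisfy the rules of `MotLocal`
-/

set_option autoImplicit false

namespace Pool.Agent.Q251.QM

open MvPolynomial Pool.Agent.W428.MOT Pool.Agent.TH192.MT Pool.Agent.TH192.DT Pool.Agent.Q49.CO
open Pool.Agent.W574.MO (mf geo MotLocal DenRing)
open Pool.Agent.W574.SM (chart chartI)
open Pool.Agent.Y230.RE
open Pool.Agent.Q57.QM

theorem inv_L {R : Type} [CommRing R] (M : Meas ℂ R) (u : Rˣ) (hL : M.L = (u : R)) :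
    M.L * ((u⁻¹ : Rˣ) : R) = 1 := by
  rw [hL, Units.mul_inv]

theorem is_swap {R : Type} [CommRing R] (M : Meas ℂ R) (u : Rˣ) (hL : M.L = (u : R))
    (hS : StSwap) {r : ℕ} (g : Fin r → MvPolynomial (Fin 2) ℂ) (a0 n0 a1 n1 : ℕ) :
    IS M ((u⁻¹ : Rˣ) : R) (sw g) a1 n1 a0 n0 = IS M ((u⁻¹ : Rˣ) : R) g a0 n0 a1 n1 := by
  unfold IS
  congr 1
  funext N
  exact hS M _ (inv_L M u hL) g a0 n0 a1 n1 (fun _ => True) 0 (Cyl.const True 0) (N + 1) N

theorem cc_swap (f : MvPolynomial (Fin 2) ℂ) :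
    constantCoeff (rename (Equiv.swap (0 : Fin 2) 1) f) = constantCoeff f := by
  rw [constantCoeff_rename]

theorem pd_swap (f : MvPolynomial (Fin 2) ℂ) :
    pderiv 1 (rename (Equiv.swap (0 : Fin 2) 1) f) =
      rename (Equiv.swap (0 : Fin 2) 1) (pderiv 0 f) := by
  have h := pderiv_rename (Equiv.swap (0 : Fin 2) 1).injective 0 f
  rw [Equiv.swap_apply_left] at h
  exact h

theorem kt_mot {R : Type} [CommRing R] (M : Meas ℂ R) (u : Rˣ) (hL : M.L = (u : R))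
    (hU : StUnit) (hC : StCurve) (hS : StSwap) (hB : StBlow) {r : ℕ}
    {g : Fin r → MvPolynomial (Fin 2) ℂ} {d0 d1 : Bool} (hT : KT (k := ℂ) g d0 d1) :
    ∀ a0 n0 a1 n1 : ℕ, (d0 = false → a0 = 0 ∧ n0 = 1) → (d1 = false → a1 = 0 ∧ n1 = 1) →
    1 ≤ n0 → 1 ≤ n1 → (a0 = 0 → n0 = 1) → (a1 = 0 → n1 = 1) →
    MotLocal u g a0 n0 a1 n1 (IS M ((u⁻¹ : Rˣ) : R) g a0 n0 a1 n1) := by
  classical
  induction hT with
  | unit g d0 d1 j hj =>
    intro a0 n0 a1 n1 _ _ hn0 hn1 h0 h1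
    rw [hU M u hL g j hj a0 n0 a1 n1 hn0 hn1 h0 h1]
    exact MotLocal.unit g a0 n0 a1 n1 j hj
  | curveV g d0 m hm h κ hg h0 h1 j hj =>
    intro a0 n0 a1 n1 _ ht1 hn0 _ e0 _
    obtain ⟨rfl, rfl⟩ := ht1 rfl
    rw [hC M u hL g m hm h κ hg h0 h1 j hj a0 n0 hn0 e0]
    exact MotLocal.curveV g a0 n0 m hm h κ hg h0 h1 j hj
  | curveU g d1 m hm h κ hg h0 h1 j hj =>
    intro a0 n0 a1 n1 ht0 _ _ hn1 _ e1
    obtain ⟨rfl, rfl⟩ := ht0 rfl
    have h2 : IS M ((u⁻¹ : Rˣ) : R) (sw g) a1 n1 0 1 = mf u a1 n1 * mf u m 1 := by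
      refine hC M u hL (sw g) m hm (rename (Equiv.swap (0 : Fin 2) 1) h) (sw κ) ?_ ?_ ?_ j ?_
        a1 n1 hn1 e1
      · intro i
        change rename (Equiv.swap (0 : Fin 2) 1) (g i) = _ * rename (Equiv.swap (0 : Fin 2) 1) (κ i)
        rw [hg i, map_mul, map_pow]
      · rw [cc_swap]
        exact h0
      · rw [pd_swap, cc_swap]
        exact h1
      · change constantCoeff (rename (Equiv.swap (0 : Fin 2) 1) (κ j)) ≠ 0
        rw [cc_swap]
        exact hj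
    rw [is_swap M u hL hS] at h2
    rw [h2]
    exact MotLocal.curveU g a1 n1 m hm h κ hg h0 h1 j hj
  | blowup g d0 d1 m hm gc gI hgc hgI hne h0 hcc hI ih0 ihc ihI =>
    intro a0 n0 a1 n1 ht0 ht1 hn0 hn1 e0 e1
    obtain ⟨j0, hj0⟩ := hne
    have hres : ∀ c, r0 (gc c j0) = (r0 (gc 0 j0)).comp (Polynomial.X + Polynomial.C c) :=
      fun c => by rw [ch_shift (hgc 0 j0) (hgc c j0), r0_shift]
    have hun : ∀ c ∉ insert 0 (r0 (gc 0 j0)).roots.toFinset, ∃ j, constantCoeff (gc c j) ≠ 0 := by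
      intro c hc
      refine ⟨j0, ?_⟩
      have h1 : MvPolynomial.constantCoeff (gc c j0) = (r0 (gc 0 j0)).eval c := by
        rw [cc_eq, ← r0_coeff, hres, Polynomial.coeff_zero_eq_eval_zero, Polynomial.eval_comp]
        simp
      rw [h1]
      intro h
      apply hc
      rw [Finset.mem_insert, Multiset.mem_toFinset]
      exact Or.inr ((Polynomial.mem_roots hj0).2 h)
    rw [hB M u hL g gc gI m hm hgc hgI (insert 0 (r0 (gc 0 j0)).roots.toFinset)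
      (Finset.mem_insert_self _ _) hun a0 n0 a1 n1 hn0 hn1 e0 e1]
    refine MotLocal.blowup g a0 n0 a1 n1 m hm gc gI hgc hgI
      (insert 0 (r0 (gc 0 j0)).roots.toFinset) (Finset.mem_insert_self _ _) hun
      (fun c => IS M ((u⁻¹ : Rˣ) : R) (gc c) (a0 + a1 + m) (n0 + n1) (if c = 0 then a1 else 0)
        (if c = 0 then n1 else 1))
      (IS M ((u⁻¹ : Rˣ) : R) gI a0 n0 (a0 + a1 + m) (n0 + n1)) ?_ ?_ ?_
    · beta_reduce
      rw [if_pos rfl, if_pos rfl]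
      exact ih0 (a0 + a1 + m) (n0 + n1) a1 n1 (by simp) ht1 (by omega) hn1 (by omega) e1
    · intro c _ hc
      beta_reduce
      rw [if_neg hc, if_neg hc]
      exact ihc c hc (a0 + a1 + m) (n0 + n1) 0 1 (by simp) (fun _ => ⟨rfl, rfl⟩) (by omega) le_rfl
        (by omega) (fun _ => rfl)
    · exact ihI a0 n0 (a0 + a1 + m) (n0 + n1) ht0 (by simp) hn0 (by omega) e0 (by omega)

theorem qm_tree : StUnit → StCurve → StSwap → StBlow → StTree := by
  intro hU hC hS hB R _ M u hL r g hg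
  exact kt_mot M u hL hU hC hS hB (exists_KT (k := ℂ) g false false hg (by simp) (by simp))
    0 1 0 1 (fun _ => ⟨rfl, rfl⟩) (fun _ => ⟨rfl, rfl⟩) le_rfl le_rfl (fun _ => rfl) (fun _ => rfl)

end Pool.Agent.Q251.QM
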